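import Mathlib
import Pool.Agent.Q179.BK.Per
import Pool.Agent.Q179.BK.Dim

/-!
# Every convex cycle trap of the baker's map is a dimension trap

Let `H` be a convex, relatively open subset of the unit square whose closure meets all cycles of the
baker's map `B` with at least two points. Then the set of the points whose orbits avoid `H` has
Hausdorff dimension zero.

Idea: let `Y` be the set of the codes of the orbits that avoid `H`. If a point `p` of such an orbit is
at distance at most `2 ^ (1 - r)` from `H`, a line through `p` supports `H`; according to its slope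
the last `r` digits of the code before `p` are determined by the next `r` digits up to a bounded
number of choices, or conversely. If `Y` has positive entropy, most of its words of length `N` can
therefore have such places `(p, r)`, `r ≥ K`, only in a small proportion of the positions (a covering
and counting argument). Hence there are two positions away from all such places with the same
surroundings, and the periodic orbit which repeats the word between them avoids the closure of `H`.
-/

set_option autoImplicit false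

namespace Pool.Agent.Results.MP_922b34_an.CycleTrapsAreDimensionTraps

/-- The closed unit square `X = [0,1]²`. -/
def square : Set (ℝ × ℝ) := Set.Icc 0 1 ×ˢ Set.Icc 0 1

/-- The baker's map. -/
noncomputable def B (p : ℝ × ℝ) : ℝ × ℝ :=
  if p.1 < 1 / 2 then (2 * p.1, p.2 / 2) else (2 * p.1 - 1, (p.2 + 1) / 2)

/-- `c` is a cycle (periodic orbit) of `B`. -/
def IsCycle (c : Set (ℝ × ℝ)) : Prop :=
  ∃ p ∈ square, ∃ n : ℕ, 1 ≤ n ∧ B^[n] p = p ∧ c = {q | ∃ k : ℕ, q = B^[k] p}

/-- Every cycle of `B` with at least two points meets the closure of `H`. (The fixed points `(0,0)`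
and `(1,1)` are not required to be in the closure.) -/
def CycleTrap (H : Set (ℝ × ℝ)) : Prop :=
  ∀ c, IsCycle c → c.Nontrivial → (c ∩ closure H).Nonempty

/-- The points `p` with a full orbit `(o n)`, `n ∈ ℤ`, `o 0 = p`, of `B` that avoids `H`. -/
def survivor (H : Set (ℝ × ℝ)) : Set (ℝ × ℝ) :=
  {p | ∃ o : ℤ → ℝ × ℝ, (∀ n, o n ∈ square ∧ B (o n) = o (n + 1) ∧ o n ∉ H) ∧ o 0 = p}

/-- The point with the code `u`: `x = ∑_{n ≥ 1} u_n 2^{-n}`, `y = ∑_{n ≥ 0} u_{-n} 2^{-n-1}`. -/
noncomputable def code (u : ℤ → Bool) : ℝ × ℝ :=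
  (∑' n : ℕ, (if u (n + 1) then 1 else 0) * (1 / 2 : ℝ) ^ (n + 1),
    ∑' n : ℕ, (if u (-n) then 1 else 0) * (1 / 2 : ℝ) ^ (n + 1))

/-- The points with a code `u` such that the points of all shifts of `u` are outside `H`. -/
def codedSurvivor (H : Set (ℝ × ℝ)) : Set (ℝ × ℝ) :=
  {p | ∃ u : ℤ → Bool, (∀ k : ℤ, code (fun n => u (n + k)) ∉ H) ∧ code u = p}

open Pool.Agent.Q179.BK

/-! ### the baker's map and the shift -/

theorem B_pt (b : Sq) (h : b 0 = true ∨ fx (sh 1 b) < 1) : B (pt b) = pt (sh 1 b) := by
  have h1 := fx_rec b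
  have h2 := fy_rec (sh 1 b)
  rw [sh_sh] at h2
  have e1 : sh 1 b (-1) = b 0 := by simp [sh]
  have e2 : sh (-1 + 1) b = b := by rw [neg_add_cancel, sh_zero]
  rw [e1, e2] at h2
  have h3 := fx_nonneg (sh 1 b)
  unfold B
  cases hb : b 0 with
  | true =>
    rw [hb] at h1 h2
    have : dg true = 1 := by simp [dg]
    rw [this] at h1 h2
    rw [if_neg (by simp only [pt]; linarith)]
    simp only [pt, Prod.mk.injEq]
    constructor <;> linarith
  | false =>
    rw [hb] at h1 h2 h
    have : dg false = 0 := by simp [dg]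
    rw [this] at h1 h2
    have h4 : fx (sh 1 b) < 1 := by
      rcases h with h | h
      · exact absurd h (by simp)
      · exact h
    rw [if_pos (by simp only [pt]; linarith)]
    simp only [pt, Prod.mk.injEq]
    constructor <;> linarith

theorem pt_mem_square (a : Sq) : pt a ∈ square :=
  ⟨⟨fx_nonneg a, fx_le a⟩, ⟨fy_nonneg a, fy_le a⟩⟩

theorem cycle_of_periodic (b : Sq) (q : ℕ) (hq : 1 ≤ q) (hper : ∀ i, b (i + q) = b i)
    (hne : ∃ i j, b i ≠ b j) :
    IsCycle {p | ∃ k : ℕ, p = pt (sh k b)} ∧ Set.Nontrivial {p | ∃ k : ℕ, p = pt (sh k b)} := by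
  have hpern : ∀ (n : ℕ) (i : ℤ), b (i + n * q) = b i := by
    intro n
    induction n with
    | zero => intro i; simp
    | succ n ih =>
      intro i
      have : i + ((n + 1 : ℕ) : ℤ) * q = (i + n * q) + q := by push_cast; ring
      rw [this, hper, ih]
  -- every value is taken at arbitrarily large places
  have hlarge : ∀ (i t : ℤ), ∃ k : ℕ, b (t + k) = b i := by
    intro i t
    have hq' : (1 : ℤ) ≤ q := by exact_mod_cast hq
    refine ⟨(i + (t - i).toNat * q - t).toNat, ?_⟩
    have h1 : t ≤ i + ((t - i).toNat : ℤ) * q := by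
      have h2 : t - i ≤ ((t - i).toNat : ℤ) := Int.self_le_toNat _
      have h3 : (0 : ℤ) ≤ (t - i).toNat := by positivity
      nlinarith
    have h4 : t + ((i + ((t - i).toNat : ℤ) * q - t).toNat : ℤ) = i + ((t - i).toNat : ℤ) * q := by
      rw [Int.toNat_of_nonneg (by linarith)]
      ring
    rw [h4, hpern]
  obtain ⟨i, j, hij⟩ := hne
  obtain ⟨i0, hi0⟩ : ∃ i0, b i0 = false := by
    cases hi : b i with
    | false => exact ⟨i, hi⟩
    | true => exact ⟨j, by rw [hi] at hij; cases hj : b j with
        | false => rfl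
        | true => exact absurd hj.symm hij⟩
  obtain ⟨i1, hi1⟩ : ∃ i1, b i1 = true := by
    cases hi : b i with
    | true => exact ⟨i, hi⟩
    | false => exact ⟨j, by rw [hi] at hij; cases hj : b j with
        | true => rfl
        | false => exact absurd hj.symm hij⟩
  have hlt : ∀ t : ℤ, fx (sh t b) < 1 := by
    intro t
    obtain ⟨k, hk⟩ := hlarge i0 t
    refine fx_lt_one k _ ?_
    show b (k + t) = false
    rw [add_comm, hk, hi0]
  have hiter : ∀ k : ℕ, B^[k] (pt b) = pt (sh k b) := by
    intro k
    induction k with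
    | zero => simp [sh_zero]
    | succ k ih =>
      rw [Function.iterate_succ_apply', ih, B_pt]
      · rw [sh_sh]
        congr 2
        push_cast
        ring
      · right
        rw [sh_sh]
        exact hlt _
  refine ⟨⟨pt b, pt_mem_square b, q, hq, ?_, ?_⟩, ?_⟩
  · rw [hiter]
    congr 1
    funext i
    exact hper i
  · ext p
    simp only [Set.mem_ofPred_eq, hiter]
  · obtain ⟨k0, hk0⟩ := hlarge i0 0
    obtain ⟨k1, hk1⟩ := hlarge i1 0
    rw [zero_add, hi0] at hk0
    rw [zero_add, hi1] at hk1
    refine ⟨pt (sh k0 b), ⟨k0, rfl⟩, pt (sh k1 b), ⟨k1, rfl⟩, ?_⟩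
    intro heq
    have h1 : fx (sh k0 b) = fx (sh k1 b) := congrArg Prod.fst heq
    have h2 := fx_rec (sh k0 b)
    have h3 := fx_rec (sh k1 b)
    have e0 : sh k0 b 0 = false := by simp only [sh, zero_add]; exact hk0
    have e1 : sh k1 b 0 = true := by simp only [sh, zero_add]; exact hk1
    rw [e0, sh_sh] at h2
    rw [e1, sh_sh] at h3
    have d0 : dg false = 0 := by simp [dg]
    have d1 : dg true = 1 := by simp [dg]
    rw [d0] at h2
    rw [d1] at h3
    have h4 := hlt (1 + k0)
    have h5 := fx_nonneg (sh (1 + k1) b)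
    linarith

theorem survivor_sub (H : Set (ℝ × ℝ)) : survivor H ⊆ pt '' Av H := by
  classical
  rintro p ⟨o, ho, rfl⟩
  set a : Sq := fun n => decide (¬ (o n).1 < 1 / 2) with ha
  have hx : ∀ n, (o n).1 = (dg (a n) + (o (n + 1)).1) / 2 := by
    intro n
    have h1 := (ho n).2.1
    rw [← h1]
    unfold B
    by_cases h : (o n).1 < 1 / 2
    · have : a n = false := by simp only [ha]; simpa using h
      rw [if_pos h, this]
      simp [dg]
    · have : a n = true := by simp only [ha]; simpa using h
      rw [if_neg h, this]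
      simp [dg]
  have hy : ∀ n, (o (n + 1)).2 = (dg (a n) + (o n).2) / 2 := by
    intro n
    have h1 := (ho n).2.1
    rw [← h1]
    unfold B
    by_cases h : (o n).1 < 1 / 2
    · have : a n = false := by simp only [ha]; simpa using h
      rw [if_pos h, this]
      simp [dg]
    · have : a n = true := by simp only [ha]; simpa using h
      rw [if_neg h, this]
      simp [dg]; ring
  have hx2 : ∀ (k : ℕ) (n : ℤ), |(o n).1 - fx (sh n a)| ≤ (1 / 2) ^ k := by
    intro k
    induction k with
    | zero =>
      intro n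
      obtain ⟨⟨h1, h2⟩, _⟩ := (ho n).1
      rw [pow_zero, abs_le]
      constructor <;> linarith [fx_nonneg (sh n a), fx_le (sh n a)]
    | succ k ih =>
      intro n
      have h1 := ih (n + 1)
      have h2 := fx_rec (sh n a)
      have e1 : sh n a 0 = a n := by simp [sh]
      have e2 : sh 1 (sh n a) = sh (n + 1) a := by rw [sh_sh, add_comm]
      rw [e1, e2] at h2
      rw [hx n, h2]
      have e : (dg (a n) + (o (n + 1)).1) / 2 - (dg (a n) + fx (sh (n + 1) a)) / 2 =
          ((o (n + 1)).1 - fx (sh (n + 1) a)) / 2 := by ring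
      rw [e, abs_div, abs_two, pow_succ]
      linarith
  have hy2 : ∀ (k : ℕ) (n : ℤ), |(o n).2 - fy (sh n a)| ≤ (1 / 2) ^ k := by
    intro k
    induction k with
    | zero =>
      intro n
      obtain ⟨_, ⟨h1, h2⟩⟩ := (ho n).1
      rw [pow_zero, abs_le]
      constructor <;> linarith [fy_nonneg (sh n a), fy_le (sh n a)]
    | succ k ih =>
      intro n
      have h1 := ih (n - 1)
      have h2 := fy_rec (sh n a)
      have e1 : sh n a (-1) = a (n - 1) := by simp only [sh]; congr 1; ring
      have e2 : sh (-1) (sh n a) = sh (n - 1) a := by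
        rw [sh_sh]; congr 1; ring
      rw [e1, e2] at h2
      have h3 := hy (n - 1)
      rw [sub_add_cancel] at h3
      rw [h3, h2]
      have e : (dg (a (n - 1)) + (o (n - 1)).2) / 2 - (dg (a (n - 1)) + fy (sh (n - 1) a)) / 2 =
          ((o (n - 1)).2 - fy (sh (n - 1) a)) / 2 := by ring
      rw [e, abs_div, abs_two, pow_succ]
      linarith
  have hzero : ∀ z : ℝ, (∀ k : ℕ, |z| ≤ (1 / 2) ^ k) → z = 0 := by
    intro z hz
    have h1 : |z| ≤ 0 := ge_of_tendsto'
      (tendsto_pow_atTop_nhds_zero_of_lt_one (by norm_num) (by norm_num : (1 / 2 : ℝ) < 1)) hz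
    exact abs_nonpos_iff.1 h1
  have heq : ∀ n, pt (sh n a) = o n := by
    intro n
    have h1 := hzero _ fun k => hx2 k n
    have h2 := hzero _ fun k => hy2 k n
    ext
    · simp only [pt]; linarith
    · simp only [pt]; linarith
  refine ⟨a, fun n => ?_, ?_⟩
  · rw [heq]
    exact (ho n).2.2
  · have := heq 0
    rwa [sh_zero] at this

theorem codedSurvivor_sub (H : Set (ℝ × ℝ)) : codedSurvivor H ⊆ pt '' Av H := by
  have key : ∀ u : ℤ → Bool, code u = pt (sh 1 u) := by
    intro u
    unfold code pt fy fx rev sh dg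
    ext
    · rfl
    · simp only
      refine tsum_congr fun n => ?_
      congr 3
      · have : (-1 - (n : ℤ) + 1) = -n := by ring
        rw [this]
  rintro p ⟨u, hu, rfl⟩
  refine ⟨sh 1 u, fun n => ?_, (key u).symm⟩
  have := hu n
  rw [key] at this
  rw [sh_sh]
  rw [show (fun i => u (i + n)) = sh n u from rfl, sh_sh] at this
  rwa [add_comm]

/-- **Every convex cycle trap of the baker's map is a dimension trap.** Let `H` be a convex subset of
the unit square, open in the square, whose closure meets every cycle of `B` with at least two points.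
Then the set of the points whose orbit avoids `H` has Hausdorff dimension `0`; the same is true for
the set of the points with a code all of whose shifts avoid `H`. -/
theorem result (H : Set (ℝ × ℝ)) (hconv : Convex ℝ H)
    (hopen : ∃ U : Set (ℝ × ℝ), IsOpen U ∧ H = U ∩ square) (hcycle : CycleTrap H) :
    dimH (survivor H) = 0 ∧ dimH (codedSurvivor H) = 0 := by
  have hmain : dimH (pt '' Av H) = 0 := by
    rcases (Av H).eq_empty_or_nonempty with he | hne
    · rw [he, Set.image_empty, dimH_empty]
    obtain ⟨h, hh, hlow, hup⟩ := growth hne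
    rcases hh.eq_or_lt with h0 | h0
    · refine dim_zero H fun ε hε => ?_
      obtain ⟨C, hC, hCn⟩ := hup ε hε
      refine ⟨C, hC, fun n => ?_⟩
      have := hCn n
      rwa [← h0, zero_add] at this
    · exfalso
      obtain ⟨b, q, hq, hper, hne2, hb⟩ := exists_periodic hconv hopen h h0 hlow hup
      obtain ⟨h1, h2⟩ := cycle_of_periodic b q hq hper hne2
      obtain ⟨p, ⟨k, hk⟩, hp⟩ := hcycle _ h1 h2
      rw [hk] at hp
      exact hb k hp
  exact ⟨le_antisymm ((dimH_mono (survivor_sub H)).trans hmain.le) zero_le,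
    le_antisymm ((dimH_mono (codedSurvivor_sub H)).trans hmain.le) zero_le⟩

end Pool.Agent.Results.MP_922b34_an.CycleTrapsAreDimensionTraps
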